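import Pool.Agent.N659.HB.Stm2

/-!
Project HB, part ASY (helper46): choice of the numbers for large `d`.
-/

set_option autoImplicit false

namespace Pool.Agent.N46.HB.Asy

open Filter Pool.Agent.N659.HB
open scoped Topology

/-- the constant in the bound of `DD` -/
noncomputable def K0 (A C : ℝ) : ℝ := 8 / A + 1 + 24 * C / A + 2 / A

/-- the constant in the bound of `cX` -/
noncomputable def c1 (A C c : ℝ) : ℝ := (c / (10 * A)) ^ 3 * (1 / A) ^ 2 / (4 * K0 A C ^ 4)

theorem K0_pos {A C : ℝ} (hA : 0 < A) (hC : 0 < C) : 0 < K0 A C := by unfold K0; positivity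

theorem c1_pos {A C c : ℝ} (hA : 0 < A) (hC : 0 < C) (hc : 0 < c) : 0 < c1 A C c := by
  have := K0_pos hA hC
  unfold c1; positivity

theorem core (d n : ℕ) (A C c y L K : ℝ) (hn : 1 ≤ n) (hA : 0 < A) (hC : 0 < C) (hc : 0 < c)
    (hK2 : 2 ≤ K) (hLK : K ≤ L) (hy : K * L ^ 3 ≤ y) (hys : y ≤ Real.sqrt d) (hLd : L ≤ d)
    (k1 : 384 * C ≤ K) (k2 : 4 * A ≤ K) (k3 : 8192 * (n : ℝ) ^ 2 * C ≤ K)
    (k4 : (5120 * n * C) ^ 2 * (32 * C) / c ^ 2 ≤ K) (k5 : 1920 * C ^ 2 / c ≤ K)
    (k6 : c / (4 * C) ≤ K) (k7 : (128 * (n : ℝ) ^ 2 * C) ^ 2 ≤ K) (k8 : 1 / (4 * C) ≤ K)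
    (k9 : 4 / (A * c1 A C c) ≤ K) (hP : (1 / Real.sqrt y) ^ n ≤ 1 / (d : ℝ) ^ 15) :
    1 / Real.sqrt d ≤ y / (2 * Real.sqrt d) ∧
    NC d n A (y / (2 * Real.sqrt d)) (4 * C * L / Real.sqrt d)
      (Real.sqrt (4 * C * L / Real.sqrt d * (4 / (y / (2 * Real.sqrt d)))))
      c (C / (y / (2 * Real.sqrt d) * Real.sqrt d)) := by
  set x : ℝ := (d : ℝ) with hx
  set s : ℝ := Real.sqrt x with hs
  have hL2 : 2 ≤ L := hK2.trans hLK
  have hL1 : 1 ≤ L := by linarith
  have hL3 : L ≤ L ^ 3 := by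
    have : L ^ 3 = L * (L * L) := by ring
    rw [this]; nlinarith [mul_le_mul hL1 hL1 zero_le_one (by linarith)]
  have hL31 : 1 ≤ L ^ 3 := hL1.trans hL3
  have hK0' : 0 < K := by linarith
  have hyK : K ≤ y := by nlinarith
  have hy0 : 0 < y := by linarith
  have hs0 : 0 < s := by linarith
  have hs1 : 1 ≤ s := by linarith
  have hx2 : 2 ≤ x := by linarith
  have hx0 : 0 < x := by linarith
  have hss : s * s = x := Real.mul_self_sqrt hx0.le
  have hsx : s ≤ x := by nlinarith
  have hKL : ∀ a : ℝ, 0 ≤ a → a ≤ K → a * L ≤ y := by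
    intro a ha haK
    calc a * L ≤ K * L ^ 3 := mul_le_mul haK hL3 (by linarith) hK0'.le
      _ ≤ y := hy
  have hlx : y / (2 * s) * s = y / 2 := by field_simp
  have hκ2 : 4 * C * L / s * (4 / (y / (2 * s))) = 32 * C * L / y := by
    field_simp
    ring
  have hκpos : 0 < 32 * C * L / y := by positivity
  set κ : ℝ := Real.sqrt (4 * C * L / s * (4 / (y / (2 * s)))) with hκ
  have hκ0 : 0 < κ := by rw [hκ, hκ2]; exact Real.sqrt_pos.2 hκpos
  have hκsq : κ ^ 2 = 32 * C * L / y := by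
    rw [hκ, Real.sq_sqrt (by rw [hκ2]; exact hκpos.le), hκ2]
  refine ⟨?_, ?_⟩
  · rw [div_le_div_iff₀ hs0 (by positivity)]
    nlinarith
  refine
    { hd := by
        have : (0 : ℝ) < d := hx0
        exact_mod_cast this
      hn := hn
      hA := hA
      hl := by positivity
      hl1 := by
        rw [div_le_one (by positivity)]
        linarith
      hb := by positivity
      hκ := hκ0
      hc := hc
      hΛ := by positivity
      κ2 := by rw [hκsq, hκ2]
      Ad := by linarith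
      e1 := ?_
      e2 := ?_
      e3 := ?_
      e4 := ?_
      e5 := ?_
      e6 := ?_
      e7 := ?_
      e8 := ?_ }
  · -- e1
    rw [hlx]
    have e : 4 * C * L / s / (y / (2 * s)) = C / (y / 2) * (4 * L) := by
      field_simp
    rw [e]
    have h0 : 0 ≤ C / (y / 2) := by positivity
    nlinarith
  · -- e2
    have h := hKL (384 * C) (by positivity) k1
    rw [le_div_iff₀ (by positivity)]
    have e : 48 * (4 * C * L / s) * (2 * s) = 384 * C * L := by
      field_simp
      ring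
    rw [e]; exact h
  · -- e3
    have e : 2 * s / A * (y / (2 * s)) = y / A := by field_simp
    rw [e, le_div_iff₀ hA]
    linarith
  · -- e4
    have h := hKL (8192 * (n : ℝ) ^ 2 * C) (by positivity) k3
    have h1 : (16 * n * κ) ^ 2 ≤ 1 := by
      have e : (16 * n * κ) ^ 2 = 8192 * (n : ℝ) ^ 2 * C * L / y := by
        rw [mul_pow, hκsq]; ring
      rw [e, div_le_one hy0]; exact h
    have h2 : 0 ≤ 16 * n * κ := by positivity
    nlinarith
  · -- e5
    have h1 : (5120 * n * C * L * κ) ^ 2 ≤ c ^ 2 := by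
      have e : (5120 * n * C * L * κ) ^ 2 = (5120 * n * C) ^ 2 * (32 * C) * L ^ 3 / y := by
        rw [mul_pow, hκsq]; ring
      rw [e, div_le_iff₀ hy0]
      have h3 : (5120 * n * C) ^ 2 * (32 * C) ≤ K * c ^ 2 := by
        rwa [div_le_iff₀ (by positivity)] at k4
      calc (5120 * n * C) ^ 2 * (32 * C) * L ^ 3 ≤ K * c ^ 2 * L ^ 3 :=
            mul_le_mul_of_nonneg_right h3 (by positivity)
        _ = c ^ 2 * (K * L ^ 3) := by ring
        _ ≤ c ^ 2 * y := mul_le_mul_of_nonneg_left hy (by positivity)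
    have h2 : 5120 * n * C * L * κ ≤ c := by
      exact (sq_le_sq₀ (by positivity) hc.le).1 h1
    rw [le_div_iff₀ (by positivity)]
    have e : 32 * n * (4 * C * L / s) * κ * (40 * s) = 5120 * n * C * L * κ := by
      field_simp
      ring
    rw [e]; exact h2
  · -- e6
    have h := hKL (1920 * C ^ 2 / c) (by positivity) k5
    rw [hlx, le_div_iff₀ (by positivity)]
    have e : 6 * (4 * C * L / s) * (C / (y / 2)) * (40 * s) = c * (1920 * C ^ 2 / c * L) / y := by
      field_simp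
      ring
    rw [e, div_le_iff₀ hy0]
    exact mul_le_mul_of_nonneg_left h hc.le
  · -- e7
    rw [div_le_div_iff_of_pos_right hs0]
    have : c ≤ 4 * C * K := by
      rw [div_le_iff₀ (by positivity)] at k6
      linarith
    have h2 : 4 * C * K ≤ 4 * C * L := mul_le_mul_of_nonneg_left hLK (by positivity)
    linarith
  · -- e8
    have hη : eta d A c = c / (10 * A) := by
      unfold eta
      rw [← hx, ← hs]
      field_simp
      ring
    have hDD : DD d A (y / (2 * s)) (4 * C * L / s) ≤ K0 A C * x ^ 2 := by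
      have e : DD d A (y / (2 * s)) (4 * C * L / s) =
          8 / A * (s * x) + 1 + 24 * C / A * L + 2 / A * y := by
        unfold DD
        rw [← hx, ← hs]
        field_simp
        ring
      rw [e]
      unfold K0
      have a1 : s * x ≤ x ^ 2 := by nlinarith
      have a2 : 1 ≤ x ^ 2 := by nlinarith
      have a3 : L ≤ x ^ 2 := by nlinarith
      have a4 : y ≤ x ^ 2 := by nlinarith
      have b1 : 8 / A * (s * x) ≤ 8 / A * x ^ 2 := mul_le_mul_of_nonneg_left a1 (by positivity)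
      have b3 : 24 * C / A * L ≤ 24 * C / A * x ^ 2 := mul_le_mul_of_nonneg_left a3 (by positivity)
      have b4 : 2 / A * y ≤ 2 / A * x ^ 2 := mul_le_mul_of_nonneg_left a4 (by positivity)
      nlinarith
    have hDD0 : 0 < DD d A (y / (2 * s)) (4 * C * L / s) := by
      unfold DD
      rw [← hx, ← hs]
      positivity
    have hK00 := K0_pos hA hC
    have hc1 := c1_pos hA hC hc
    have hcX : c1 A C c / x ^ 8 ≤ cX d A (y / (2 * s)) (4 * C * L / s) c := by
      unfold cX
      rw [hη, ← hx, ← hs]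
      have e : 2 * s / A * (y / (2 * s)) = y / A := by field_simp
      rw [e]
      have h1 : (1 / A) ^ 2 ≤ (y / A) ^ 2 :=
        pow_le_pow_left₀ (by positivity) (div_le_div_of_nonneg_right (by linarith) hA.le) 2
      have h2 : 4 * DD d A (y / (2 * s)) (4 * C * L / s) ^ 4 ≤ 4 * (K0 A C * x ^ 2) ^ 4 :=
        mul_le_mul_of_nonneg_left (pow_le_pow_left₀ hDD0.le hDD 4) (by norm_num)
      have e3 : c1 A C c / x ^ 8 = (c / (10 * A)) ^ 3 * (1 / A) ^ 2 / (4 * (K0 A C * x ^ 2) ^ 4) := by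
        unfold c1
        rw [mul_pow, ← pow_mul]
        field_simp
      rw [e3]
      have hnum : (c / (10 * A)) ^ 3 * (1 / A) ^ 2 ≤ (c / (10 * A)) ^ 3 * (y / A) ^ 2 :=
        mul_le_mul_of_nonneg_left h1 (by positivity)
      exact div_le_div₀ (by positivity) hnum (by positivity) h2
    have hcX0 : 0 < cX d A (y / (2 * s)) (4 * C * L / s) c :=
      lt_of_lt_of_le (by positivity) hcX
    have h1 : 2 * s / A / cX d A (y / (2 * s)) (4 * C * L / s) c ≤ 2 / (A * c1 A C c) * x ^ 9 := by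
      calc 2 * s / A / cX d A (y / (2 * s)) (4 * C * L / s) c
          ≤ 2 * s / A / (c1 A C c / x ^ 8) :=
            div_le_div_of_nonneg_left (by positivity) (by positivity) hcX
        _ = 2 / (A * c1 A C c) * (s * x ^ 8) := by
            field_simp
        _ ≤ 2 / (A * c1 A C c) * (x * x ^ 8) :=
            mul_le_mul_of_nonneg_left (mul_le_mul_of_nonneg_right hsx (by positivity))
              (by positivity)
        _ = 2 / (A * c1 A C c) * x ^ 9 := by ring
    have hsy : Real.sqrt y * Real.sqrt y = y := Real.mul_self_sqrt hy0.le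
    have hsy0 : 0 < Real.sqrt y := Real.sqrt_pos.2 hy0
    have h2 : ((2 * n * κ) ^ n) ^ 2 ≤ 1 / x ^ 15 := by
      have e : ((2 * n * κ) ^ n) ^ 2 = (128 * (n : ℝ) ^ 2 * C * L / y) ^ n := by
        rw [← pow_mul, mul_comm n 2, pow_mul, mul_pow, hκsq]
        congr 1
        ring
      rw [e]
      refine le_trans (pow_le_pow_left₀ (by positivity) ?_ n) hP
      rw [div_le_div_iff₀ hy0 hsy0, one_mul]
      have h3 : 128 * (n : ℝ) ^ 2 * C * L ≤ Real.sqrt y := by
        apply Real.le_sqrt_of_sq_le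
        have : (128 * (n : ℝ) ^ 2 * C * L) ^ 2 = (128 * (n : ℝ) ^ 2 * C) ^ 2 * L ^ 2 := by ring
        rw [this]
        calc (128 * (n : ℝ) ^ 2 * C) ^ 2 * L ^ 2 ≤ K * L ^ 3 :=
              mul_le_mul k7 (pow_le_pow_right₀ hL1 (by norm_num)) (by positivity) hK0'.le
          _ ≤ y := hy
      calc 128 * (n : ℝ) ^ 2 * C * L * Real.sqrt y ≤ Real.sqrt y * Real.sqrt y :=
            mul_le_mul_of_nonneg_right h3 hsy0.le
        _ = y := hsy
    have h4 : 1 / x ≤ 4 * C * L / s * κ := by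
      have hCL : 1 ≤ 4 * C * L := by
        have : 1 ≤ 4 * C * K := by
          rw [div_le_iff₀ (by positivity)] at k8
          linarith
        have h2 : 4 * C * K ≤ 4 * C * L := mul_le_mul_of_nonneg_left hLK (by positivity)
        linarith
      have a1 : 1 / s ≤ 4 * C * L / s := div_le_div_of_nonneg_right hCL hs0.le
      have a2 : 1 / s ≤ κ := by
        refine (sq_le_sq₀ (by positivity) hκ0.le).1 ?_
        rw [hκsq, div_pow, one_pow, sq s, hss]
        rw [div_le_div_iff₀ hx0 hy0]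
        have : y ≤ x := hys.trans hsx
        nlinarith
      calc 1 / x = 1 / s * (1 / s) := by rw [← hss]; field_simp
        _ ≤ 4 * C * L / s * κ := mul_le_mul a1 a2 (by positivity) (by positivity)
    refine le_trans ?_ h4
    have hxK : K ≤ x := hLK.trans hLd
    calc 2 * s / A / cX d A (y / (2 * s)) (4 * C * L / s) c * (2 * ((2 * n * κ) ^ n) ^ 2)
        ≤ 2 / (A * c1 A C c) * x ^ 9 * (2 * (1 / x ^ 15)) :=
          mul_le_mul h1 (mul_le_mul_of_nonneg_left h2 (by norm_num)) (by positivity) (by positivity)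
      _ = 4 / (A * c1 A C c) * (1 / x ^ 6) := by
          field_simp
          ring
      _ ≤ x * (1 / x ^ 6) := mul_le_mul_of_nonneg_right (k9.trans hxK) (by positivity)
      _ = 1 / x ^ 5 := by field_simp
      _ ≤ 1 / x := by
          apply one_div_le_one_div_of_le hx0
          calc x = x ^ 1 := (pow_one x).symm
            _ ≤ x ^ 5 := pow_le_pow_right₀ (by linarith) (by norm_num)

theorem main : S_ASY := by
  intro A δ C c hA hδ hδ2 hC hc
  set n : ℕ := ⌈30 / δ⌉₊ with hn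
  have hn30 : 30 / δ ≤ n := Nat.le_ceil _
  have hnδ : 30 ≤ n * δ := by
    rw [div_le_iff₀ hδ] at hn30; exact hn30
  have hn1 : 1 ≤ n := by
    rcases Nat.eq_zero_or_pos n with h | h
    · rw [h] at hnδ; norm_num at hnδ
    · exact h
  set K : ℝ := 2 + 384 * C + 4 * A + 8192 * (n : ℝ) ^ 2 * C + (5120 * n * C) ^ 2 * (32 * C) / c ^ 2 +
    1920 * C ^ 2 / c + c / (4 * C) + (128 * (n : ℝ) ^ 2 * C) ^ 2 + 1 / (4 * C) +
    4 / (A * c1 A C c) with hK
  have hc1 := c1_pos hA hC hc
  have p1 : 0 ≤ 384 * C := by positivity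
  have p2 : 0 ≤ 4 * A := by positivity
  have p3 : 0 ≤ 8192 * (n : ℝ) ^ 2 * C := by positivity
  have p4 : 0 ≤ (5120 * n * C) ^ 2 * (32 * C) / c ^ 2 := by positivity
  have p5 : 0 ≤ 1920 * C ^ 2 / c := by positivity
  have p6 : 0 ≤ c / (4 * C) := by positivity
  have p7 : 0 ≤ (128 * (n : ℝ) ^ 2 * C) ^ 2 := by positivity
  have p8 : 0 ≤ 1 / (4 * C) := by positivity
  have p9 : 0 ≤ 4 / (A * c1 A C c) := by positivity
  have hK2 : 2 ≤ K := by rw [hK]; linarith
  -- eventually
  have t1 : ∀ᶠ d : ℕ in atTop, K ≤ Real.log d :=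
    (Real.tendsto_log_atTop.comp tendsto_natCast_atTop_atTop).eventually_ge_atTop K
  have t2 : ∀ᶠ d : ℕ in atTop, K * Real.log d ^ 3 ≤ (d : ℝ) ^ δ := by
    have h := isLittleO_log_rpow_rpow_atTop (s := δ) 3 hδ
    have h2 := (h.def (c := 1 / K) (by positivity))
    have h3 := tendsto_natCast_atTop_atTop (R := ℝ) |>.eventually h2
    filter_upwards [h3, t1] with d hd hd1
    have hlog : 0 ≤ Real.log d := by linarith
    have e : Real.log (d : ℝ) ^ (3 : ℝ) = Real.log d ^ 3 := by
      rw [← Real.rpow_natCast]; norm_num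
    rw [e, Real.norm_of_nonneg (by positivity), Real.norm_of_nonneg (by positivity)] at hd
    have hKpos : 0 < K := by linarith
    calc K * Real.log d ^ 3 ≤ K * (1 / K * (d : ℝ) ^ δ) := mul_le_mul_of_nonneg_left hd hKpos.le
      _ = (d : ℝ) ^ δ := by field_simp
  obtain ⟨d₀, hd₀⟩ := eventually_atTop.1 (t1.and t2)
  refine ⟨n, d₀, fun d hd => ?_⟩
  obtain ⟨h1, h2⟩ := hd₀ d hd
  set x : ℝ := (d : ℝ) with hx
  have hx0 : 0 < x := by
    rcases (Nat.cast_nonneg d : (0 : ℝ) ≤ d).eq_or_lt with h | h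
    · exfalso
      rw [hx, ← h, Real.log_zero] at h1
      linarith
    · exact h
  have hlx : Real.log x ≤ x := (Real.log_le_sub_one_of_pos hx0).trans (by linarith)
  have hx1 : 1 ≤ x := by linarith
  have hs : Real.sqrt x = x ^ (1 / 2 : ℝ) := Real.sqrt_eq_rpow x
  have hys : x ^ δ ≤ Real.sqrt x := by
    rw [hs]
    exact Real.rpow_le_rpow_of_exponent_le hx1 hδ2.le
  have hl : x ^ (-(1 / 2 : ℝ) + δ) / 2 = x ^ δ / (2 * Real.sqrt x) := by
    rw [Real.rpow_add hx0, hs, Real.rpow_neg hx0.le]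
    have : 0 < x ^ (1 / 2 : ℝ) := by positivity
    field_simp
  rw [hl]
  have hP : (1 / Real.sqrt (x ^ δ)) ^ n ≤ 1 / x ^ 15 := by
    have e : (1 / Real.sqrt (x ^ δ)) ^ n = 1 / x ^ (δ * (1 / 2) * n) := by
      rw [one_div_pow, Real.sqrt_eq_rpow, ← Real.rpow_mul hx0.le, ← Real.rpow_natCast,
        ← Real.rpow_mul hx0.le]
    rw [e]
    apply one_div_le_one_div_of_le (by positivity)
    rw [← Real.rpow_natCast x 15]
    apply Real.rpow_le_rpow_of_exponent_le hx1
    push_cast
    nlinarith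
  refine core d n A C c (x ^ δ) (Real.log x) K hn1 hA hC hc hK2 h1 h2 hys hlx ?_ ?_ ?_ ?_ ?_ ?_ ?_
    ?_ ?_ hP <;> · rw [hK]; linarith

end Pool.Agent.N46.HB.Asy
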